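import Pool.Agent.Lib.MP_e79cb7_ag.MAIN

/-!
# Generalized Hénon maps with biholomorphic surfaces

`f = comp a P 0 k`, `g = comp b Q 0 l` are generalized Hénon maps, `Surf f = Ω(f)/⟨f⟩ = S(f)`.
`IsComp f j`: `j` maps `S(f)` biholomorphically onto the complement of a curve of a complex
surface `X`; for instance `X` is the minimal resolution of the normal compactification of `S(f)`.
-/

open Filter Topology Polynomial Bornology
open scoped Manifold ContDiff

noncomputable section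

namespace Pool.Agent.Results.MP_e79cb7_ag.HenonSurfaces

open HEN

universe u

/-- `S(f)` and `S(g)` are biholomorphic if and only if `f` and `g` are conjugate by a polynomial
automorphism, explicitly described by affine changes of the data; the same for the complex surfaces
which contain `S(f)`, `S(g)` as complements of curves. -/
theorem result {k l : ℕ} {a b : ℤ → ℂ} {P Q : ℤ → ℂ[X]} (hf : IsData k a P)
    (hg : IsData l b Q) :
    List.TFAE [Biholo (comp a P 0 k) (comp b Q 0 l),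
      ∃ h : ℂ × ℂ → ℂ × ℂ, IsPolyAut h ∧ h ∘ comp a P 0 k = comp b Q 0 l ∘ h,
      l = k ∧ ∃ (r : ℤ) (α β : ℤ → ℂ), Rel k a P b Q r α β] ∧
    (∀ (X : Type u) [TopologicalSpace X] [ChartedSpace (ℂ × ℂ) X] [T2Space X]
      [IsManifold 𝓘(ℂ, ℂ × ℂ) 1 X] (j : Surf (comp a P 0 k) → X), IsComp (comp a P 0 k) j →
      ((∃ j' : Surf (comp b Q 0 l) → X, IsComp (comp b Q 0 l) j' ∧ Set.range j' = Set.range j) ↔
        ∃ h : ℂ × ℂ → ℂ × ℂ, IsPolyAut h ∧ h ∘ comp a P 0 k = comp b Q 0 l ∘ h) ∧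
      ∀ j' : Surf (comp b Q 0 l) → X, IsComp (comp b Q 0 l) j' → Set.range j' = Set.range j) ∧
    (∀ (X Y : Type u) [TopologicalSpace X] [ChartedSpace (ℂ × ℂ) X] [T2Space X]
      [IsManifold 𝓘(ℂ, ℂ × ℂ) 1 X] [TopologicalSpace Y] [ChartedSpace (ℂ × ℂ) Y] [T2Space Y]
      [IsManifold 𝓘(ℂ, ℂ × ℂ) 1 Y] (j : Surf (comp a P 0 k) → X) (j' : Surf (comp b Q 0 l) → Y),
      IsComp (comp a P 0 k) j → IsComp (comp b Q 0 l) j' → (∃ e : X ≃ Y, IsBiholo e) →
        ∃ h : ℂ × ℂ → ℂ × ℂ, IsPolyAut h ∧ h ∘ comp a P 0 k = comp b Q 0 l ∘ h) := by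
  have key : Biholo (comp a P 0 k) (comp b Q 0 l) ↔
      ∃ h : ℂ × ℂ → ℂ × ℂ, IsPolyAut h ∧ h ∘ comp a P 0 k = comp b Q 0 l ∘ h :=
    (main hf hg).out 0 1
  refine ⟨main hf hg, ?_, ?_⟩
  · intro X _ _ _ _ j hj
    refine ⟨⟨?_, ?_⟩, fun j' hj' => (comp_facts hf hg hj hj').1⟩
    · rintro ⟨j', hj', _⟩
      exact key.1 (comp_facts hf hg hj hj').2
    · intro hc
      exact comp_of_biholo_range hj (key.2 hc)
  · intro X Y _ _ _ _ _ _ _ _ j j' hj hj' ⟨e, he⟩
    exact key.1 (comp_facts hf hg hj (comp_transport hj' he)).2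

end Pool.Agent.Results.MP_e79cb7_ag.HenonSurfaces
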